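import Pool.Agent.V11329.Main

/-! The rank-zero criterion for convergence of cokernels of sparse `p`-adic matrices to the
Cohen-Lenstra distribution. -/

set_option autoImplicit false

namespace Pool.Agent.Results.MP_78de02_pr.RankZeroCriterion

open Filter Topology Pool.Agent.V11329.CokDefs

/-- For every prime `p` and every sequence of supports, the cokernel of the Haar random matrix
converges to the Cohen-Lenstra distribution if and only if the probability that the matrix is
invertible modulo `p` converges to `∏_{i ≥ 1} (1 - p^{-i})`. -/
theorem result (p : ℕ) [Fact p.Prime] (σ : ∀ n : ℕ, Fin n → Set (Fin n)) :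
    (∀ (G : Type) [AddCommGroup G] [Finite G], (∃ k, Nat.card G = p ^ k) →
      Tendsto (fun n => prob p n {ω | Nonempty (cok (mat (σ n) ω) ≃+ G)}) atTop (𝓝 (CL p G)))
    ↔ Tendsto (fun n => prob p n {ω | ((mat (σ n) ω).map (PadicInt.toZMod (p := p))).det ≠ 0})
        atTop (𝓝 (cInf p)) :=
  Pool.Agent.V11329.Main.main p σ

end Pool.Agent.Results.MP_78de02_pr.RankZeroCriterion
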